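import Pool.Agent.H64.Spr3

namespace Pool.Agent.Results.MP_317377_al.One

/-- `G` is `k`-spread: any `k` nontrivial elements have a common generating partner -/
def IsSpread (G : Type) [Group G] (k : ℕ) : Prop :=
  ∀ x : Fin k → G, (∀ i, x i ≠ 1) → ∃ y : G, ∀ i, Subgroup.closure {x i, y} = ⊤

open H64.Spr in
theorem result : ∃ (G : Type) (_ : Group G), IsGreatest {k : ℕ | IsSpread G k} 1 := by
  refine ⟨G, inferInstance, ?_, ?_⟩
  · intro x hx
    obtain ⟨y, hy, h⟩ := three_halves (x 0).2 (fun h => hx 0 (Subtype.ext h))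
    refine ⟨⟨y, hy⟩, fun i => ?_⟩
    rw [Subsingleton.elim i 0]
    exact top_iff.2 h
  · intro k hk
    by_contra hlt
    push Not at hlt
    obtain ⟨a, ha⟩ : ∃ a : Bool → G, ∀ e, (a e).1 = C e (root g1) :=
      ⟨fun e => ⟨C e (root g1), mem_D.1 (root_D g1_mem) e⟩, fun _ => rfl⟩
    obtain ⟨y, hy⟩ := hk (fun i => a (decide (i.val = 0))) (fun i h => by
      have h2 := ha (decide (i.val = 0))
      rw [h] at h2
      exact C_ne_one _ h2.symm)
    obtain ⟨e, he⟩ := not_two y.2
    apply he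
    rw [← ha, ← top_iff]
    cases e
    · simpa using hy ⟨1, hlt⟩
    · simpa using hy ⟨0, by omega⟩

end Pool.Agent.Results.MP_317377_al.One
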